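import Pool.Agent.Helper11_COV.Stmt

/-!
# Squad COV, module CHB: Chebyshev bound in dyadic blocks
-/

set_option autoImplicit false

open Finset

namespace Pool.Agent.COV.H81

theorem chb : ChbStmt := by
  intro k
  set s : Finset ℕ := (Ioc (2 ^ k) (2 ^ (k + 1))).filter Nat.Prime with hs
  have hmem : ∀ p ∈ s, 2 ^ k < p ∧ p ≤ 2 ^ (k + 1) ∧ p.Prime := by
    intro p hp
    rw [hs, mem_filter, mem_Ioc] at hp
    exact ⟨hp.1.1, hp.1.2, hp.2⟩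
  have h1 : (∏ p ∈ s, p) ∣ (2 ^ k + 2 ^ k).choose (2 ^ k) := by
    refine Finset.prod_primes_dvd _ (fun p hp => (hmem p hp).2.2.prime) (fun p hp => ?_)
    obtain ⟨a, b, c⟩ := hmem p hp
    exact c.dvd_choose_add a a (by rw [← two_mul, ← pow_succ']; exact b)
  have h2 : (2 ^ k) ^ s.card ≤ ∏ p ∈ s, p :=
    Finset.pow_card_le_prod _ _ _ fun p hp => (hmem p hp).1.le
  have h3 : (2 ^ k + 2 ^ k).choose (2 ^ k) ≤ 2 ^ (2 ^ k + 2 ^ k) := Nat.choose_le_two_pow _ _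
  have h4 : 0 < (2 ^ k + 2 ^ k).choose (2 ^ k) := Nat.choose_pos (Nat.le_add_left _ _)
  have h5 : (2 ^ k) ^ s.card ≤ 2 ^ (2 ^ k + 2 ^ k) := h2.trans ((Nat.le_of_dvd h4 h1).trans h3)
  rw [← pow_mul] at h5
  have h6 := (Nat.pow_le_pow_iff_right (by norm_num : 1 < 2)).1 h5
  calc k * s.card ≤ 2 ^ k + 2 ^ k := h6
    _ = 2 ^ (k + 1) := by rw [pow_succ]; ring

end Pool.Agent.COV.H81
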