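import Pool.Agent.COV.StmtsD
import Pool.Agent.Helper15_TTC.CR7

/-!
# One choice for finitely many fibres (row CR9 of squad COV)

Problem MP_160b6c_nt.
-/

set_option autoImplicit false

namespace Pool.Agent.COV.H81Cr9

open Polynomial Pool.Agent.TTC Pool.Agent.TTC.H1

/-- a number which is good for all `i` -/
theorem pick {n N c : ℕ} (hN : n * c < N) (P : Fin n → ℕ → Prop)
    (h : ∀ i, ∃ s : Finset ℕ, s.card ≤ c ∧ ∀ x < N, P i x → x ∈ s) : ∃ x < N, ∀ i, ¬ P i x := by
  choose s hs1 hs2 using h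
  have hU : ((Finset.univ : Finset (Fin n)).biUnion s).card < (Finset.range N).card := by
    rw [Finset.card_range]
    refine lt_of_le_of_lt (Finset.card_biUnion_le_card_mul _ _ c (fun i _ => hs1 i)) ?_
    rw [Finset.card_univ, Fintype.card_fin]
    exact hN
  obtain ⟨x, hx1, hx2⟩ := Finset.exists_mem_notMem_of_card_lt_card hU
  rw [Finset.mem_range] at hx1
  exact ⟨x, hx1, fun i hi => hx2 (Finset.mem_biUnion.2 ⟨i, Finset.mem_univ _, hs2 i x hx1 hi⟩)⟩

open Classical in
/-- at most five numbers `m` are bad -/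
theorem badm (a : Fin 7 → ℂ) (h0 : a 0 ≠ 0) (hD : Dns (sext a)) (N : ℕ) :
    ((Finset.range N).filter (fun m : ℕ => r6 m a = 0)).card ≤ 5 := by
  have h6 : (6 : ℂ) ≠ 0 := by norm_num
  obtain ⟨hi, -, -⟩ := hD
  obtain ⟨-, hF'0⟩ := crit_eq ℂ a h6 h0
  have hcard5 : Multiset.card (derivative (sext a)).roots ≤ 5 := by
    refine (card_roots' _).trans ((natDegree_derivative_le _).trans ?_)
    have := deg6 a
    omega
  obtain ⟨Bad, hBad⟩ : ∃ Bad : ℂ → Finset ℕ, ∀ θ, Bad θ = (Finset.range N).filter (fun m : ℕ =>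
    (derivative (derivative (sext a))).eval θ + (m : ℂ) * (sext a).eval θ = 0) :=
    ⟨_, fun _ => rfl⟩
  have hB1 : ∀ θ ∈ (derivative (sext a)).roots.toFinset, (Bad θ).card ≤ 1 := by
    intro θ hθ
    rw [Multiset.mem_toFinset, mem_roots hF'0] at hθ
    rw [Finset.card_le_one]
    intro m hm m' hm'
    rw [hBad, Finset.mem_filter] at hm hm'
    by_cases hF : (sext a).eval θ = 0
    · exfalso
      have h1 := hm.2
      rw [hF, mul_zero, add_zero] at h1
      exact hi θ ⟨hF, hθ, h1⟩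
    · have h1 : (m : ℂ) * (sext a).eval θ = (m' : ℂ) * (sext a).eval θ := by
        linear_combination hm.2 - hm'.2
      exact_mod_cast mul_right_cancel₀ hF h1
  have hU : ((derivative (sext a)).roots.toFinset.biUnion Bad).card ≤ 5 := by
    refine (Finset.card_biUnion_le_card_mul _ _ 1 hB1).trans ?_
    have := Multiset.toFinset_card_le (derivative (sext a)).roots
    omega
  refine (Finset.card_le_card ?_).trans hU
  intro m hm
  rw [Finset.mem_filter, TTC.H15Cr7.r6_eq a h6 h0] at hm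
  have h1 := (mul_eq_zero.1 hm.2).resolve_left (pow_ne_zero _ (mul_ne_zero h0 h6))
  obtain ⟨θ, hθ, h2⟩ := Multiset.mem_map.1 (Multiset.prod_eq_zero_iff.1 h1)
  refine Finset.mem_biUnion.2 ⟨θ, Multiset.mem_toFinset.2 hθ, ?_⟩
  rw [hBad, Finset.mem_filter]
  exact ⟨hm.1, h2⟩

open Classical in
/-- at most one number `j` is bad -/
theorem badj (a : Fin 7 → ℂ) (h0 : a 0 ≠ 0) (hD : Dns (sext a)) (N : ℕ) :
    ((Finset.range N).filter (fun j : ℕ =>
      (crit a).coeff 1 + (j : ℂ) * (crit a).coeff 2 = 0)).card ≤ 1 := by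
  obtain ⟨-, j0, -, m0, -, he⟩ := TTC.H15Cr7.part2 a h0 hD
  rw [Finset.card_le_one]
  intro j hj j' hj'
  rw [Finset.mem_filter] at hj hj'
  by_cases hc : (crit a).coeff 2 = 0
  · exfalso
    apply he
    have h1 := hj.2
    rw [hc, mul_zero, add_zero] at h1
    unfold e7
    rw [hc, h1, mul_zero, add_zero, mul_zero, zero_mul]
  · have h1 : (j : ℂ) * (crit a).coeff 2 = (j' : ℂ) * (crit a).coeff 2 := by
      linear_combination hj.2 - hj'.2
    exact_mod_cast mul_right_cancel₀ hc h1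

theorem cr9 : Cr9Stmt := by
  classical
  intro n a ha
  have h6 : (6 : ℂ) ≠ 0 := by norm_num
  have hD : ∀ i, d6 (a i) = 0 → Dns (sext (a i)) := fun i h => (ha i).2.resolve_left (fun h1 => h1 h)
  obtain ⟨j, hj, hj'⟩ := pick (n := n) (N := n + 1) (c := 1) (by omega)
    (fun i j => d6 (a i) = 0 ∧ (crit (a i)).coeff 1 + (j : ℂ) * (crit (a i)).coeff 2 = 0)
    (by
      intro i
      by_cases h : d6 (a i) = 0
      · exact ⟨_, badj (a i) (ha i).1 (hD i h) (n + 1), fun x hx hx' =>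
          Finset.mem_filter.2 ⟨Finset.mem_range.2 hx, hx'.2⟩⟩
      · exact ⟨∅, Nat.zero_le _, fun x _ hx' => absurd hx'.1 h⟩)
  obtain ⟨m, hm, hm'⟩ := pick (n := n) (N := 5 * n + 1) (c := 5) (by omega)
    (fun i m => d6 (a i) = 0 ∧ r6 m (a i) = 0)
    (by
      intro i
      by_cases h : d6 (a i) = 0
      · exact ⟨_, badm (a i) (ha i).1 (hD i h) (5 * n + 1), fun x hx hx' =>
          Finset.mem_filter.2 ⟨Finset.mem_range.2 hx, hx'.2⟩⟩
      · exact ⟨∅, Nat.zero_le _, fun x _ hx' => absurd hx'.1 h⟩)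
  have hE : ∀ i, d6 (a i) = 0 → e7 j m (a i) ≠ 0 := by
    intro i h
    unfold e7
    exact mul_ne_zero (mul_ne_zero (mul_ne_zero h6 (ha i).1) (fun h1 => hj' i ⟨h, h1⟩))
      (fun h1 => hm' i ⟨h, h1⟩)
  obtain ⟨s, hs, hs'⟩ := pick (n := n) (N := n + 1) (c := 1) (by omega)
    (fun i s => e7 j m (a i) + (s : ℂ) * d6 (a i) = 0)
    (by
      intro i
      refine ⟨(Finset.range (n + 1)).filter (fun s : ℕ => e7 j m (a i) + (s : ℂ) * d6 (a i) = 0),
        ?_, fun x hx hx' => Finset.mem_filter.2 ⟨Finset.mem_range.2 hx, hx'⟩⟩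
      rw [Finset.card_le_one]
      intro s hs s' hs'
      rw [Finset.mem_filter] at hs hs'
      by_cases h : d6 (a i) = 0
      · exfalso
        have h1 := hs.2
        rw [h, mul_zero, add_zero] at h1
        exact hE i h h1
      · have h1 : (s : ℂ) * d6 (a i) = (s' : ℂ) * d6 (a i) := by
          linear_combination hs.2 - hs'.2
        exact_mod_cast mul_right_cancel₀ h h1)
  exact ⟨j, by omega, m, by omega, s, by omega, hs'⟩

end Pool.Agent.COV.H81Cr9
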